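import Pool.Agent.Helper28.TK.StK

/-! # Project TK, module TN2: the twisted Eichler integral of the central polynomial -/

set_option autoImplicit false

namespace Pool.Agent.Helper67.TK

open Pool.Agent.Helper28.TK Pool.Agent.Helper14.WK
open Pool.Agent.Helper28.WK (pr cp)
open Pool.Agent.Helper14.CV (G0)
open Filter Topology MeasureTheory Set UpperHalfPlane
open scoped MatrixGroups Real

private theorem imx (D u : ℕ) (x : ℝ) : ((u : ℂ) / (D : ℂ) + (x : ℂ) * Complex.I).im = x := by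
  have e : ((u : ℂ) / (D : ℂ)) = (((u : ℝ) / (D : ℝ) : ℝ) : ℂ) := by push_cast; rfl
  rw [e]
  simp

private theorem decay {N : ℕ} {k : ℤ} (f : CuspForm (G0 N) k) (j D u : ℕ) (C : ℝ)
    (hC : ∀ z : ℂ, 1 ≤ z.im → ‖EK f j z‖ ≤ C * (1 + ‖z‖) ^ j * Real.exp (-2 * Real.pi * z.im)) :
    Tendsto (fun y : ℝ => EK f j ((u : ℂ) / (D : ℂ) + (y : ℂ) * Complex.I)) atTop (𝓝 0) := by
  set b : ℝ := (u : ℝ) / (D : ℝ) with hb
  have hb0 : 0 ≤ b := by positivity
  have h1 : Tendsto (fun y : ℝ => ((1 + b) + y) ^ j * Real.exp (-((1 + b) + y))) atTop (𝓝 0) :=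
    (Real.tendsto_pow_mul_exp_neg_atTop_nhds_zero j).comp
      (tendsto_atTop_add_const_left atTop (1 + b : ℝ) tendsto_id)
  have h2 : Tendsto (fun y : ℝ => |C| * Real.exp (1 + b) *
      (((1 + b) + y) ^ j * Real.exp (-((1 + b) + y)))) atTop (𝓝 0) := by
    have := h1.const_mul (|C| * Real.exp (1 + b))
    rwa [mul_zero] at this
  refine squeeze_zero_norm' ?_ h2
  filter_upwards [eventually_ge_atTop (1 : ℝ)] with y hy
  have hy0 : 0 ≤ y := by linarith
  have him := imx D u y
  have hn : ‖(u : ℂ) / (D : ℂ) + (y : ℂ) * Complex.I‖ ≤ b + y := by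
    refine (norm_add_le _ _).trans ?_
    have e : ((u : ℂ) / (D : ℂ)) = ((b : ℝ) : ℂ) := by rw [hb]; push_cast; rfl
    rw [e, norm_mul, Complex.norm_I, mul_one, Complex.norm_real, Complex.norm_real,
      Real.norm_of_nonneg hy0, Real.norm_of_nonneg hb0]
  have h3 := hC ((u : ℂ) / (D : ℂ) + (y : ℂ) * Complex.I) (by rw [him]; exact hy)
  rw [him] at h3
  have h4 : Real.exp (-2 * Real.pi * y) ≤ Real.exp (1 + b) * Real.exp (-((1 + b) + y)) := by
    rw [← Real.exp_add]
    apply Real.exp_le_exp.2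
    have hpi := Real.pi_gt_three
    nlinarith
  have h6 : (1 + ‖(u : ℂ) / (D : ℂ) + (y : ℂ) * Complex.I‖) ^ j ≤ ((1 + b) + y) ^ j := by
    apply pow_le_pow_left₀ (by positivity)
    linarith
  calc ‖EK f j ((u : ℂ) / (D : ℂ) + (y : ℂ) * Complex.I)‖
      ≤ C * (1 + ‖(u : ℂ) / (D : ℂ) + (y : ℂ) * Complex.I‖) ^ j * Real.exp (-2 * Real.pi * y) := h3
    _ ≤ |C| * (1 + ‖(u : ℂ) / (D : ℂ) + (y : ℂ) * Complex.I‖) ^ j * Real.exp (-2 * Real.pi * y) := by
      gcongr
      exact le_abs_self C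
    _ ≤ |C| * ((1 + b) + y) ^ j * (Real.exp (1 + b) * Real.exp (-((1 + b) + y))) := by gcongr
    _ = |C| * Real.exp (1 + b) * (((1 + b) + y) ^ j * Real.exp (-((1 + b) + y))) := by ring

private theorem degq (A D u : ℕ) : (qP A D u).natDegree ≤ A := by
  unfold qP
  refine (Polynomial.natDegree_pow_le).trans ?_
  have h : (Polynomial.C (D : ℤ) * Polynomial.X - Polynomial.C (u : ℤ)).natDegree ≤ 1 := by
    refine (Polynomial.natDegree_sub_le _ _).trans ?_
    refine max_le ((Polynomial.natDegree_C_mul_le _ _).trans Polynomial.natDegree_X_le) ?_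
    rw [Polynomial.natDegree_C]
    exact Nat.zero_le _
  calc A * (Polynomial.C (D : ℤ) * Polynomial.X - Polynomial.C (u : ℤ)).natDegree ≤ A * 1 :=
        Nat.mul_le_mul_left _ h
    _ = A := mul_one _

private theorem aevq (A D u : ℕ) (z : ℂ) : Polynomial.aeval z (qP A D u) = ((D : ℂ) * z - u) ^ A := by
  unfold qP
  simp

theorem hTN2 : StTN2 := by
  intro he hb1 hTN1 N hN A f I D u hD hI
  have hD0 : (D : ℂ) ≠ 0 := by exact_mod_cast hD.ne'
  have hDR : (0 : ℝ) < (D : ℝ) := by exact_mod_cast hD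
  obtain ⟨hc, ht, hb⟩ := hTN1 N hN A f D u hD
  set P := qP A D u with hP
  -- integrability
  have hM1 : MellinConvergent (hUK D f u) ((A : ℂ) + 1) := by
    refine mellinConvergent_of_isBigO_rpow_exp (a := 2 * Real.pi) (b := 0)
      (by have := Real.pi_pos; positivity) ?_ ht (hb 0) ?_
    · exact hc.locallyIntegrableOn measurableSet_Ioi
    · simp only [Complex.add_re, Complex.natCast_re, Complex.one_re]
      positivity
  have hpow : ∀ t : ℝ, 0 < t → ((t : ℂ) ^ (((A : ℂ) + 1) - 1)) • hUK D f u t =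
      (t : ℂ) ^ A * hUK D f u t := by
    intro t ht
    rw [add_sub_cancel_right, Complex.cpow_natCast, smul_eq_mul]
  have hint : IntegrableOn (fun t : ℝ => (t : ℂ) ^ A * hUK D f u t) (Ioi 0) :=
    (show IntegrableOn (fun t : ℝ => ((t : ℂ) ^ (((A : ℂ) + 1) - 1)) • hUK D f u t) (Ioi (0 : ℝ)) volume
      from hM1).congr_fun (fun t ht => hpow t ht) measurableSet_Ioi
  -- the primitive
  let F : ℝ → ℂ := fun y => if y ≤ 0 then pr I P u D else
    prE f P ((u : ℂ) / (D : ℂ) + (y : ℂ) * Complex.I)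
  have hF0 : F 0 = pr I P u D := if_pos le_rfl
  have hFpos : ∀ y : ℝ, 0 < y → F y = prE f P ((u : ℂ) / (D : ℂ) + (y : ℂ) * Complex.I) :=
    fun y hy => if_neg (not_le.2 hy)
  have hder : ∀ x ∈ Ioi (0 : ℝ), HasDerivAt F
      (Complex.I ^ (A + 1) * (D : ℂ) ^ A * ((x : ℂ) ^ A * hUK D f u x)) x := by
    intro x hx
    have hx0 : 0 < ((u : ℂ) / (D : ℂ) + (x : ℂ) * Complex.I).im := by rw [imx]; exact hx
    have h2 := (he N hN _ f _ hx0).2 P
    have h3 : HasDerivAt (fun y : ℝ => (u : ℂ) / (D : ℂ) + (y : ℂ) * Complex.I) Complex.I x := by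
      have := ((Complex.ofRealCLM.hasDerivAt (x := x)).mul_const Complex.I).const_add
        ((u : ℂ) / (D : ℂ))
      simpa using this
    have h4 := h2.comp x h3
    have h5 : HasDerivAt (fun y : ℝ => prE f P ((u : ℂ) / (D : ℂ) + (y : ℂ) * Complex.I))
        (Complex.I ^ (A + 1) * (D : ℂ) ^ A * ((x : ℂ) ^ A * hUK D f u x)) x := by
      have e1 : Complex.I ^ (A + 1) * (D : ℂ) ^ A * ((x : ℂ) ^ A * hUK D f u x) =
          fzK f ((u : ℂ) / (D : ℂ) + (x : ℂ) * Complex.I) *
            Polynomial.aeval ((u : ℂ) / (D : ℂ) + (x : ℂ) * Complex.I) P * Complex.I := by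
        rw [hP, aevq]
        have e2 : (D : ℂ) * ((u : ℂ) / (D : ℂ) + (x : ℂ) * Complex.I) - u =
            (D : ℂ) * (x : ℂ) * Complex.I := by
          field_simp
          ring
        rw [e2, mul_pow, mul_pow, pow_succ]
        unfold hUK
        ring
      rw [e1]
      exact h4
    refine h5.congr_of_eventuallyEq ?_
    filter_upwards [Ioi_mem_nhds hx] with y hy
    exact hFpos y hy
  have htop : Tendsto F atTop (𝓝 0) := by
    have h7 : Tendsto (fun y : ℝ => prE f P ((u : ℂ) / (D : ℂ) + (y : ℂ) * Complex.I)) atTop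
        (𝓝 0) := by
      have h8 : Tendsto (fun y : ℝ => ∑ i ∈ P.support, (P.coeff i : ℂ) *
          EK f i ((u : ℂ) / (D : ℂ) + (y : ℂ) * Complex.I)) atTop
          (𝓝 (∑ i ∈ P.support, (P.coeff i : ℂ) * 0)) := by
        refine tendsto_finsetSum _ fun i _ => ?_
        obtain ⟨C, hC⟩ := hb1 N hN _ f i
        exact (decay f i D u C hC).const_mul _
      simp only [mul_zero, Finset.sum_const_zero] at h8
      exact h8
    refine h7.congr' ?_
    filter_upwards [eventually_gt_atTop 0] with y hy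
    rw [hFpos y hy]
  have hcont : ContinuousWithinAt F (Ici 0) 0 := by
    have hdeg : ∀ i ∈ P.support, i ≤ 2 * A := by
      intro i hi
      have h9 := Polynomial.le_natDegree_of_mem_supp i hi
      have h10 := degq A D u
      rw [← hP] at h10
      omega
    have hone : ∀ i : ℕ, i ≤ 2 * A → Tendsto
        (fun y : ℝ => EK f i ((u : ℂ) / (D : ℂ) + (y : ℂ) * Complex.I)) (𝓝[>] 0)
        (𝓝 (I u D i)) := by
      intro i hi
      have h2 := hI (u : ℤ) (-1) (D : ℤ) 0 (by
        have : (0 : ℤ) < (D : ℤ) := by exact_mod_cast hD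
        linarith) i hi 0
      have h6 : Tendsto (fun t : ℝ => (D : ℝ)⁻¹ * t⁻¹) (𝓝[>] 0) atTop :=
        (tendsto_inv_nhdsGT_zero (𝕜 := ℝ)).const_mul_atTop (inv_pos.2 hDR)
      have h4 := h2.comp h6
      refine h4.congr' ?_
      filter_upwards [self_mem_nhdsWithin] with y hy
      have hy' : (0 : ℝ) < y := hy
      show EK f i _ = _
      congr 1
      have hy0 : (y : ℂ) ≠ 0 := by exact_mod_cast hy'.ne'
      have hI : Complex.I ≠ 0 := Complex.I_ne_zero
      have hI2 : Complex.I ^ 2 = -1 := Complex.I_sq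
      push_cast
      rw [div_eq_iff]
      · field_simp
        linear_combination (-(y : ℂ) * D) * hI2
      · simp only [zero_add, add_zero]
        exact mul_ne_zero hD0 (mul_ne_zero (mul_ne_zero (inv_ne_zero hD0) (inv_ne_zero hy0)) hI)
    have h3 : Tendsto F (𝓝[>] 0) (𝓝 (pr I P u D)) := by
      have h8 : Tendsto (fun y : ℝ => ∑ i ∈ P.support, (P.coeff i : ℂ) *
          EK f i ((u : ℂ) / (D : ℂ) + (y : ℂ) * Complex.I)) (𝓝[>] 0)
          (𝓝 (∑ i ∈ P.support, (P.coeff i : ℂ) * I u D i)) := by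
        refine tendsto_finsetSum _ fun i hi => ?_
        exact (hone i (hdeg i hi)).const_mul _
      have e3 : pr I P u D = ∑ i ∈ P.support, (P.coeff i : ℂ) * I u D i := by
        show (P.sum fun i c => c • I u D i) = _
        rw [Polynomial.sum_def]
        exact Finset.sum_congr rfl fun i _ => by rw [zsmul_eq_mul]
      rw [e3]
      refine h8.congr' ?_
      filter_upwards [self_mem_nhdsWithin] with y hy
      rw [hFpos y hy]
      rfl
    rw [← Ioi_insert, continuousWithinAt_insert_self]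
    show Tendsto F (𝓝[>] 0) (𝓝 (F 0))
    rw [hF0]
    exact h3
  have hmain := integral_Ioi_of_hasDerivAt_of_tendsto hcont hder (hint.const_mul _) htop
  rw [integral_const_mul, hF0, zero_sub] at hmain
  rw [hmain, neg_neg]

end Pool.Agent.Helper67.TK
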