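import Pool.Agent.Helper4.TK.StD

/-! # Project TK (MP_1d384c_nt): module ExB (from the edge function to the symbol) -/

set_option autoImplicit false

namespace Pool.Agent.Helper67.TK

open Pool.Agent.Helper14.CV (Homog EqC act Tl StFar StFex)
open Pool.Agent.Helper14.W5 (tr5)
open Pool.Agent.Helper4.TK

section

variable {R : Type} [AddCommGroup R]

/-- the value of the path from `b/d` to `a/c` -/
private def EE (V : ℤ → ℤ → ℤ → ℤ → R) (a b c d : ℤ) : R :=
  if (3 : ℤ) ∣ c then V a b c d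
  else if (3 : ℤ) ∣ d then -V b (-a) d (-c)
  else if (3 : ℤ) ∣ c + d then V (a + b) b (c + d) d - V (a + b) (-a) (c + d) (-c)
  else V (a - b) b (c - d) d - V (a - b) a (c - d) c

variable {V : ℤ → ℤ → ℤ → ℤ → R}

private theorem ev0 {a b c d : ℤ} (hc : (3 : ℤ) ∣ c) : EE V a b c d = V a b c d := by
  unfold EE
  rw [if_pos hc]

private theorem ev1 {a b c d : ℤ} (hc : ¬ (3 : ℤ) ∣ c) (hd : (3 : ℤ) ∣ d) :
    EE V a b c d = -V b (-a) d (-c) := by
  unfold EE
  rw [if_neg hc, if_pos hd]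

private theorem ev2 {a b c d : ℤ} (hc : ¬ (3 : ℤ) ∣ c) (hd : ¬ (3 : ℤ) ∣ d)
    (hcd : (3 : ℤ) ∣ c + d) :
    EE V a b c d = V (a + b) b (c + d) d - V (a + b) (-a) (c + d) (-c) := by
  unfold EE
  rw [if_neg hc, if_neg hd, if_pos hcd]

private theorem ev3 {a b c d : ℤ} (hc : ¬ (3 : ℤ) ∣ c) (hd : ¬ (3 : ℤ) ∣ d)
    (hcd : ¬ (3 : ℤ) ∣ c + d) :
    EE V a b c d = V (a - b) b (c - d) d - V (a - b) a (c - d) c := by
  unfold EE
  rw [if_neg hc, if_neg hd, if_neg hcd]

private theorem not_both {a b c d : ℤ} (h : a * d - b * c = 1) (hc : (3 : ℤ) ∣ c) :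
    ¬ (3 : ℤ) ∣ d := by
  rintro ⟨k, rfl⟩
  obtain ⟨l, rfl⟩ := hc
  have e : a * (3 * k) - b * (3 * l) = 3 * (a * k - b * l) := by ring
  omega

private theorem third {c d : ℤ} (hc : ¬ (3 : ℤ) ∣ c) (hd : ¬ (3 : ℤ) ∣ d)
    (hcd : ¬ (3 : ℤ) ∣ c + d) : (3 : ℤ) ∣ c - d := by
  have h1 : c % 3 = 0 ∨ c % 3 = 1 ∨ c % 3 = 2 := by omega
  have h2 : d % 3 = 0 ∨ d % 3 = 1 ∨ d % 3 = 2 := by omega
  rcases h1 with h1 | h1 | h1 <;> rcases h2 with h2 | h2 | h2 <;> omega

omit [AddCommGroup R] in
private theorem vcong {a b c d a' b' c' d' : ℤ} (h1 : a = a') (h2 : b = b') (h3 : c = c')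
    (h4 : d = d') : V a b c d = V a' b' c' d' := by
  subst h1 h2 h3 h4
  rfl

/-- the sign -/
private theorem ee_neg
    (hneg : ∀ a b c d : ℤ, a * d - b * c = 1 → (3 : ℤ) ∣ c → V (-a) (-b) (-c) (-d) = V a b c d)
    {a b c d : ℤ} (h : a * d - b * c = 1) : EE V (-a) (-b) (-c) (-d) = EE V a b c d := by
  by_cases hc : (3 : ℤ) ∣ c
  · rw [ev0 (Int.dvd_neg.2 hc), ev0 hc]
    exact hneg a b c d h hc
  · have hc' : ¬ (3 : ℤ) ∣ -c := fun h' => hc (Int.dvd_neg.1 h')
    by_cases hd : (3 : ℤ) ∣ d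
    · rw [ev1 hc' (Int.dvd_neg.2 hd), ev1 hc hd, hneg b (-a) d (-c) (by linear_combination h) hd]
    · have hd' : ¬ (3 : ℤ) ∣ -d := fun h' => hd (Int.dvd_neg.1 h')
      by_cases hcd : (3 : ℤ) ∣ c + d
      · have hcd' : (3 : ℤ) ∣ -c + -d := by omega
        rw [ev2 hc' hd' hcd', ev2 hc hd hcd,
          ← hneg (a + b) b (c + d) d (by linear_combination h) hcd,
          ← hneg (a + b) (-a) (c + d) (-c) (by linear_combination h) hcd, neg_add, neg_add]
      · have hcd' : ¬ (3 : ℤ) ∣ -c + -d := by omega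
        have hm : (3 : ℤ) ∣ c - d := third hc hd hcd
        rw [ev3 hc' hd' hcd', ev3 hc hd hcd,
          ← hneg (a - b) b (c - d) d (by linear_combination h) hm,
          ← hneg (a - b) a (c - d) c (by linear_combination h) hm]
        have e1 : -a - -b = -(a - b) := by ring
        have e2 : -c - -d = -(c - d) := by ring
        rw [e1, e2]

/-- the orientation -/
private theorem ee_S
    (hneg : ∀ a b c d : ℤ, a * d - b * c = 1 → (3 : ℤ) ∣ c → V (-a) (-b) (-c) (-d) = V a b c d)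
    {a b c d : ℤ} (h : a * d - b * c = 1) : EE V b (-a) d (-c) = -EE V a b c d := by
  by_cases hc : (3 : ℤ) ∣ c
  · rw [ev1 (not_both h hc) (Int.dvd_neg.2 hc), ev0 hc, hneg a b c d h hc]
  · have hc' : ¬ (3 : ℤ) ∣ -c := fun h' => hc (Int.dvd_neg.1 h')
    by_cases hd : (3 : ℤ) ∣ d
    · rw [ev0 hd, ev1 hc hd, neg_neg]
    · by_cases hcd : (3 : ℤ) ∣ c + d
      · have hcd' : ¬ (3 : ℤ) ∣ d + -c := by omega
        rw [ev3 hd hc' hcd', ev2 hc hd hcd]
        have e1 : V (b - -a) (-a) (d - -c) (-c) = V (a + b) (-a) (c + d) (-c) :=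
          vcong (by ring) rfl (by ring) rfl
        have e2 : V (b - -a) b (d - -c) d = V (a + b) b (c + d) d :=
          vcong (by ring) rfl (by ring) rfl
        rw [e1, e2]
        abel
      · have hm : (3 : ℤ) ∣ c - d := third hc hd hcd
        have hcd' : (3 : ℤ) ∣ d + -c := by omega
        rw [ev2 hd hc' hcd', ev3 hc hd hcd]
        have h2 := hneg (a - b) a (c - d) c (by linear_combination h) hm
        have h3 := hneg (a - b) b (c - d) d (by linear_combination h) hm
        have e1 : V (b + -a) (-a) (d + -c) (-c) = V (a - b) a (c - d) c := by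
          rw [← h2]
          exact vcong (by ring) rfl (by ring) rfl
        have e2 : V (b + -a) (-b) (d + -c) (-d) = V (a - b) b (c - d) d := by
          rw [← h3]
          exact vcong (by ring) rfl (by ring) rfl
        rw [e1, e2]
        abel

/-- the triangle relation -/
private theorem ee_tri
    (hneg : ∀ a b c d : ℤ, a * d - b * c = 1 → (3 : ℤ) ∣ c → V (-a) (-b) (-c) (-d) = V a b c d)
    (hhex : ∀ a b c d : ℤ, a * d - b * c = 1 → (3 : ℤ) ∣ c → V a b c d - V a (a + b) c (c + d) +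
      V (2 * a + 3 * b) (-(a + b)) (2 * c + 3 * d) (-(c + d)) -
      V (2 * a + 3 * b) (a + 2 * b) (2 * c + 3 * d) (c + 2 * d) +
      V (a + 3 * b) (-(a + 2 * b)) (c + 3 * d) (-(c + 2 * d)) - V (a + 3 * b) b (c + 3 * d) d = 0)
    {a b c d : ℤ} (h : a * d - b * c = 1) :
    EE V a b c d = EE V a (a + b) c (c + d) + EE V (a + b) b (c + d) d := by
  by_cases hc : (3 : ℤ) ∣ c
  · have hd := not_both h hc
    have hcd : ¬ (3 : ℤ) ∣ c + d := by omega
    have hcd2 : ¬ (3 : ℤ) ∣ c + d + d := by omega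
    rw [ev0 hc, ev0 hc, ev3 hcd hd hcd2]
    have e1 : V (a + b - b) b (c + d - d) d = V a b c d :=
      vcong (by ring) rfl (by ring) rfl
    have e2 : V (a + b - b) (a + b) (c + d - d) (c + d) = V a (a + b) c (c + d) :=
      vcong (by ring) rfl (by ring) rfl
    rw [e1, e2]
    abel
  · by_cases hd : (3 : ℤ) ∣ d
    · have hcd : ¬ (3 : ℤ) ∣ c + d := by omega
      have hcd2 : ¬ (3 : ℤ) ∣ c + (c + d) := by omega
      rw [ev1 hc hd, ev3 hc hcd hcd2, ev1 hcd hd]
      have h1 := hneg b (-(a + b)) d (-(c + d)) (by linear_combination h) hd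
      have h2 := hneg b (-a) d (-c) (by linear_combination h) hd
      have e1 : V (a - (a + b)) (a + b) (c - (c + d)) (c + d) = V b (-(a + b)) d (-(c + d)) := by
        rw [← h1]
        exact vcong (by ring) (by ring) (by ring) (by ring)
      have e2 : V (a - (a + b)) a (c - (c + d)) c = V b (-a) d (-c) := by
        rw [← h2]
        exact vcong (by ring) (by ring) (by ring) (by ring)
      rw [e1, e2]
      abel
    · by_cases hcd : (3 : ℤ) ∣ c + d
      · rw [ev2 hc hd hcd, ev1 hc hcd, ev0 hcd]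
        abel
      · have hm : (3 : ℤ) ∣ c - d := third hc hd hcd
        have hcd2 : (3 : ℤ) ∣ c + (c + d) := by omega
        have hcd3 : (3 : ℤ) ∣ c + d + d := by omega
        rw [ev3 hc hd hcd, ev2 hc hcd hcd2, ev2 hcd hd hcd3]
        have h1 := hhex (a - b) b (c - d) d (by linear_combination h) hm
        have e1 : V (a - b) (a - b + b) (c - d) (c - d + d) = V (a - b) a (c - d) c :=
          vcong rfl (by ring) rfl (by ring)
        have e2 : V (2 * (a - b) + 3 * b) (-(a - b + b)) (2 * (c - d) + 3 * d) (-(c - d + d)) =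
            V (a + (a + b)) (-a) (c + (c + d)) (-c) :=
          vcong (by ring) (by ring) (by ring) (by ring)
        have e3 : V (2 * (a - b) + 3 * b) (a - b + 2 * b) (2 * (c - d) + 3 * d) (c - d + 2 * d) =
            V (a + (a + b)) (a + b) (c + (c + d)) (c + d) :=
          vcong (by ring) (by ring) (by ring) (by ring)
        have e4 : V (a - b + 3 * b) (-(a - b + 2 * b)) (c - d + 3 * d) (-(c - d + 2 * d)) =
            V (a + b + b) (-(a + b)) (c + d + d) (-(c + d)) :=
          vcong (by ring) (by ring) (by ring) (by ring)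
        have e5 : V (a - b + 3 * b) b (c - d + 3 * d) d = V (a + b + b) b (c + d + d) d :=
          vcong (by ring) rfl (by ring) rfl
        rw [e1, e2, e3, e4, e5] at h1
        rw [← sub_eq_zero, ← h1]
        abel

/-- equal values along the edges with denominator at infinity divisible by three are enough -/
private theorem far2 (hfar : StFar) {H : ℤ → ℤ → R} (hH : Homog H)
    (h2 : ∀ a b c d : ℤ, a * d - b * c = 1 → (3 : ℤ) ∣ c → H a c = H b d) : EqC H 0 := by
  refine hfar R inferInstance H hH fun a b c d h => ?_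
  have hac : a ≠ 0 ∨ c ≠ 0 := by
    by_contra h'
    push Not at h'
    rw [h'.1, h'.2] at h
    simp at h
  have hn : H (-a) (-c) = H a c := by
    have := hH (-1) a c (by norm_num) hac
    rwa [neg_one_mul, neg_one_mul] at this
  by_cases hc : (3 : ℤ) ∣ c
  · exact h2 a b c d h hc
  · by_cases hd : (3 : ℤ) ∣ d
    · rw [h2 b (-a) d (-c) (by linear_combination h) hd, hn]
    · by_cases hcd : (3 : ℤ) ∣ c + d
      · rw [← h2 (a + b) b (c + d) d (by linear_combination h) hcd,
          h2 (a + b) (-a) (c + d) (-c) (by linear_combination h) hcd, hn]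
      · have hm : (3 : ℤ) ∣ c - d := third hc hd hcd
        rw [← h2 (a - b) b (c - d) d (by linear_combination h) hm,
          h2 (a - b) a (c - d) c (by linear_combination h) hm]

end

private theorem eqc_of_sub {R : Type} [AddCommGroup R] {G H : ℤ → ℤ → R} (h : EqC (G - H) 0) :
    EqC G H := by
  obtain ⟨k, hk⟩ := h
  refine ⟨k, fun p q hpq => ?_⟩
  have h1 := hk p q hpq
  have h2 : G p q - H p q = k := by
    have h6 : (0 : ℤ → ℤ → R) p q = 0 := rfl
    rw [h6, zero_add] at h1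
    exact h1
  rw [← h2]
  abel

/-- Module ExB. -/
theorem hExB (hp : TPlK) (hx : StFex) (hf : StFar) : TExB := by
  intro R _ r s F V hneg hhex hgam hgam2 hbase
  obtain ⟨G, hGh, hG⟩ := hx R inferInstance (EE V) (fun a b c d h =>
    ⟨ee_neg hneg h, ee_S hneg h, ee_tri hneg hhex h⟩)
  refine ⟨G, ⟨hGh, ?_⟩, ?_⟩
  · intro α β γ δ hty hβ hγ
    have hdet0 : α * δ - β * γ ≠ 0 := hty.det_ne
    apply eqc_of_sub
    have hH : Homog (act α β γ δ G - G) := by
      rw [sub_eq_add_neg]
      exact (hGh.act hdet0).add hGh.neg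
    refine far2 hf hH ?_
    intro a b c d h hc
    rcases hty with ⟨hdet, h2γ⟩ | ⟨hdet, h2α, h2γ, h2δ⟩
    · have h1 := hG a b c d h
      have h2 := hG (α * a + β * c) (α * b + β * d) (γ * a + δ * c) (γ * b + δ * d)
        (by linear_combination (a * d - b * c) * hdet + h)
      rw [ev0 (dvd_add (Dvd.dvd.mul_right h2γ _) (Dvd.dvd.mul_left hc _)),
        hgam α β γ δ a b c d hdet h2γ hβ hγ h hc] at h2
      rw [ev0 hc, ← h2] at h1
      show G (α * a + β * c) (γ * a + δ * c) - G a c = G (α * b + β * d) (γ * b + δ * d) - G b d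
      rw [sub_eq_sub_iff_add_eq_add] at h1 ⊢
      rw [← h1, add_comm]
    · obtain ⟨α, rfl⟩ := h2α
      obtain ⟨γ, rfl⟩ := h2γ
      obtain ⟨δ, rfl⟩ := h2δ
      obtain ⟨c, rfl⟩ := hc
      have hdet' : 3 * α * δ - β * γ = 1 := by
        have e : 3 * (3 * α * δ - β * γ) = 3 := by linear_combination hdet
        omega
      have hγ' : (5 : ℤ) ^ (s + 1) ∣ γ := by
        have hc5 : IsCoprime ((5 : ℤ) ^ (s + 1)) 3 := by
          apply IsCoprime.pow_left
          exact ⟨-1, 2, by norm_num⟩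
        exact hc5.dvd_of_dvd_mul_left hγ
      have h1 := hG a b (3 * c) d h
      have h' : a * d - 3 * b * c = 1 := by linear_combination h
      have h2 := hG (3 * α * b + β * d) (-(α * a + β * c)) (3 * (γ * b + δ * d))
        (-(γ * a + 3 * δ * c)) (by linear_combination (a * d - 3 * b * c) * hdet' + h')
      rw [ev0 (dvd_mul_right _ _), hgam2 α β γ δ a b c d hdet' hβ hγ' h'] at h2
      rw [ev0 (dvd_mul_right _ _)] at h1
      rw [← h1] at h2
      have hnz : α * a + β * c ≠ 0 ∨ γ * a + 3 * δ * c ≠ 0 := by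
        by_contra hz
        push Not at hz
        have e : (3 * α * b + β * d) * (-(γ * a + 3 * δ * c)) -
            (-(α * a + β * c)) * (3 * (γ * b + δ * d)) = 1 := by
          linear_combination (a * d - 3 * b * c) * hdet' + h'
        rw [hz.1, hz.2] at e
        simp at e
      have hn : G (-(α * a + β * c)) (-(γ * a + 3 * δ * c)) =
          G (α * a + β * c) (γ * a + 3 * δ * c) := by
        have := hGh (-1) _ _ (by norm_num) hnz
        rwa [neg_one_mul, neg_one_mul] at this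
      have hn2 : G (3 * α * a + β * (3 * c)) (3 * γ * a + 3 * δ * (3 * c)) =
          G (α * a + β * c) (γ * a + 3 * δ * c) := by
        have := hGh 3 _ _ (by norm_num) hnz
        rw [← this]
        congr 1 <;> ring
      rw [hn] at h2
      show G (3 * α * a + β * (3 * c)) (3 * γ * a + 3 * δ * (3 * c)) - G a (3 * c) =
        G (3 * α * b + β * d) (3 * γ * b + 3 * δ * d) - G b d
      have e3 : G (3 * α * b + β * d) (3 * γ * b + 3 * δ * d) =
          G (3 * α * b + β * d) (3 * (γ * b + δ * d)) := by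
        congr 1
        ring
      rw [hn2, e3]
      have h5 := sub_eq_iff_eq_add.1 h2
      rw [h5]
      abel
  · intro i
    funext x y
    obtain ⟨⟨hty, hb, hc⟩, hev⟩ := hp r s x y
    have hdet : 1 * (1 + 5 * (x.val : ℤ) * yK x y) - (x.val : ℤ) * (5 * yK x y) = 1 := by ring
    have hb' := hbase x y 1 (x.val : ℤ) (yK x y) (1 + 5 * (x.val : ℤ) * yK x y) hdet hev hb hc
    have h1 := hG (1 + 3 * (x.val : ℤ)) (x.val : ℤ)
      (5 * yK x y + 3 * (1 + 5 * (x.val : ℤ) * yK x y)) (1 + 5 * (x.val : ℤ) * yK x y)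
      (by ring)
    rw [ev0 (dvd_add (Dvd.dvd.mul_left hev _) (dvd_mul_right _ _))] at h1
    fin_cases i
    · show edgeK 1 (eK 0) 0 1 G x y = F 0 x y
      rw [← hb'.1]
      have h1 := hG 1 (x.val : ℤ) (5 * yK x y) (1 + 5 * (x.val : ℤ) * yK x y) hdet
      rw [ev0 (Dvd.dvd.mul_left hev _)] at h1
      rw [← h1]
      have e0 : eK 0 = 0 := rfl
      unfold edgeK
      rw [e0]
      congr 1
      · (congr 1; ring)
      · congr 1 <;> ring
    · show edgeK 1 (eK 1) 0 1 G x y = F 1 x y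
      rw [← hb'.2.1, ← h1]
      have e1 : eK 1 = 3 := rfl
      unfold edgeK
      rw [e1]
      congr 1
      · congr 1 <;> ring
      · congr 1 <;> ring
    · show edgeK 1 (eK 2) 0 1 G x y = F 2 x y
      have h2 := hG (1 + 3 * (x.val : ℤ)) (-(1 + 2 * (x.val : ℤ)))
        (5 * yK x y + 3 * (1 + 5 * (x.val : ℤ) * yK x y))
        (-(5 * yK x y + 2 * (1 + 5 * (x.val : ℤ) * yK x y))) (by ring)
      rw [ev0 (dvd_add (Dvd.dvd.mul_left hev _) (dvd_mul_right _ _))] at h2
      have hnz : 1 + 2 * (x.val : ℤ) ≠ 0 ∨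
          5 * yK x y + 2 * (1 + 5 * (x.val : ℤ) * yK x y) ≠ 0 := by
        left
        positivity
      have hn : G (-(1 + 2 * (x.val : ℤ))) (-(5 * yK x y + 2 * (1 + 5 * (x.val : ℤ) * yK x y))) =
          G (1 + 2 * (x.val : ℤ)) (5 * yK x y + 2 * (1 + 5 * (x.val : ℤ) * yK x y)) := by
        have := hGh (-1) _ _ (by norm_num) hnz
        rwa [neg_one_mul, neg_one_mul] at this
      rw [hn] at h2
      rw [← hb'.2.2, ← h1, ← h2]
      have e2 : eK 2 = 2 := rfl
      unfold edgeK
      rw [e2]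
      have e3 : G (1 + (x.val : ℤ) * 2) (5 * yK x y * 1 + (1 + 5 * (x.val : ℤ) * yK x y) * 2) =
          G (1 + 2 * (x.val : ℤ)) (5 * yK x y + 2 * (1 + 5 * (x.val : ℤ) * yK x y)) := by
        congr 1 <;> ring
      have e4 : G (0 + (x.val : ℤ) * 1) (5 * yK x y * 0 + (1 + 5 * (x.val : ℤ) * yK x y) * 1) =
          G (x.val : ℤ) (1 + 5 * (x.val : ℤ) * yK x y) := by
        congr 1 <;> ring
      rw [e3, e4]
      abel

end Pool.Agent.Helper67.TK
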